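import Mathlib
import Pool.Agent.helper7.IG.Basic

/-!
# IG: module R3 (cubic relations between theta series)
-/

set_option autoImplicit false

noncomputable section

namespace Pool.Agent.helper7.IG

open Classical in
/-- Coefficients of the last summand. -/
lemma r3_coeff9 {e : ℕ} (he : e ≠ 0) (ζ : kkˣ) (s : ℕ) (c : ℤ) (m : ℤ) :
    (sig (9 * e) (ζ ^ 9) (th s c)).coeff (e * m) =
      if ∃ k : ℤ, 9 * k ^ 2 = m ∧ k ≡ c [ZMOD 2 ^ s] then ((ζ ^ m : kkˣ) : kk) else 0 := by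
  have h9 : (9 * e : ℕ) ≠ 0 := by omega
  have he' : (e : ℤ) ≠ 0 := by exact_mod_cast he
  by_cases h : (9 : ℤ) ∣ m
  · obtain ⟨l, rfl⟩ := h
    have h1 : (e : ℤ) * (9 * l) = ((9 * e : ℕ) : ℤ) * l := by push_cast; ring
    rw [h1, sig_th_coeff h9]
    have h2 : (∃ k : ℤ, k ^ 2 = l ∧ k ≡ c [ZMOD 2 ^ s]) ↔
        (∃ k : ℤ, 9 * k ^ 2 = 9 * l ∧ k ≡ c [ZMOD 2 ^ s]) := by
      constructor
      · rintro ⟨k, hk, hc⟩
        exact ⟨k, by rw [hk], hc⟩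
      · rintro ⟨k, hk, hc⟩
        exact ⟨k, by linarith, hc⟩
    have h3 : (ζ ^ 9) ^ l = ζ ^ (9 * l) := by
      rw [zpow_mul]; rfl
    simp only [h2, h3]
  · rw [sig_coeff_of_not_dvd h9, if_neg]
    · rintro ⟨k, hk, _⟩
      exact h ⟨k ^ 2, hk.symm⟩
    · rintro ⟨l, hl⟩
      apply h
      refine ⟨l, ?_⟩
      have h4 : (e : ℤ) * m = e * (9 * l) := by rw [hl]; push_cast; ring
      exact mul_left_cancel₀ he' h4

open Classical in
/-- Coefficients of the sum of the first three terms. -/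
lemma r3_coeff3 {e : ℕ} (he : e ≠ 0) (ζ ω : kkˣ) (s : ℕ) (c : ℕ → ℤ) (m : ℤ) :
    (∑ j ∈ Finset.range 3, sig e (ζ * ω ^ j) (th s (c j))).coeff (e * m) =
      ((ζ ^ m : kkˣ) : kk) * (∑ j ∈ Finset.range 3,
        if ∃ k : ℤ, k ^ 2 = m ∧ k ≡ c j [ZMOD 2 ^ s] then (((ω ^ m) ^ j : kkˣ) : kk) else 0) := by
  rw [HahnSeries.coeff_sum, Finset.mul_sum]
  refine Finset.sum_congr rfl fun j _ => ?_
  rw [sig_th_coeff he]
  split_ifs
  · rw [← Units.val_mul, mul_zpow, ← zpow_natCast ω j, ← zpow_mul, mul_comm (j : ℤ) m, zpow_mul,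
      zpow_natCast]
  · rw [mul_zero]

lemma r3_omega {ω : kkˣ} (hω : IsPrimitiveRoot ω 3) : (1 : kk) + ω + (ω : kk) ^ 2 = 0 := by
  have h1 : IsPrimitiveRoot (ω : kk) 3 := IsPrimitiveRoot.coe_units_iff.mpr hω
  have h2 := h1.geom_sum_eq_zero (by norm_num)
  simpa [Finset.sum_range_succ] using h2

lemma r3_pow_one {ω : kkˣ} (hω : IsPrimitiveRoot ω 3) {m : ℤ} (hm : m % 3 = 1) : ω ^ m = ω := by
  have h1 : m = 3 * (m / 3) + 1 := by omega
  have h3 : ω ^ (3 : ℤ) = 1 := by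
    have := hω.pow_eq_one
    exact_mod_cast this
  rw [h1, zpow_add, zpow_mul, h3, one_zpow, one_mul, zpow_one]

lemma r3_pow_zero {ω : kkˣ} (hω : IsPrimitiveRoot ω 3) {m : ℤ} (hm : (3 : ℤ) ∣ m) : ω ^ m = 1 := by
  obtain ⟨l, rfl⟩ := hm
  have h3 : ω ^ (3 : ℤ) = 1 := by
    have := hω.pow_eq_one
    exact_mod_cast this
  rw [zpow_mul, h3, one_zpow]

lemma r3_sq_mod {k : ℤ} (hk : ¬ (3 : ℤ) ∣ k) : k ^ 2 % 3 = 1 := by
  have h : k % 3 = 1 ∨ k % 3 = 2 := by omega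
  rcases h with h | h <;> simp [pow_two, Int.mul_emod, h]

lemma r3_cancel {s : ℕ} {a b : ℤ} (h : 3 * a ≡ 3 * b [ZMOD 2 ^ s]) : a ≡ b [ZMOD 2 ^ s] := by
  have hc : IsCoprime ((2 : ℤ) ^ s) 3 := by
    apply IsCoprime.pow_left
    exact ⟨-1, 1, by norm_num⟩
  rw [Int.modEq_iff_dvd] at h ⊢
  have h2 : (2 : ℤ) ^ s ∣ 3 * (b - a) := by
    have : 3 * (b - a) = 3 * b - 3 * a := by ring
    rw [this]; exact h
  exact hc.dvd_of_dvd_mul_left h2

lemma r3_three : (1 : kk) + 1 + 1 = 1 := by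
  have h : (1 : kk) + 1 = 0 := CharTwo.add_self_eq_zero 1
  rw [h, zero_add]

theorem R3 : R3_stmt := by
  classical
  intro e s ζ ω c c' he hs hc hcc hω
  have he' : (e : ℤ) ≠ 0 := by exact_mod_cast he
  have h9 : (9 * e : ℕ) ≠ 0 := by omega
  ext n
  rw [HahnSeries.coeff_add, HahnSeries.coeff_zero]
  by_cases hn : (e : ℤ) ∣ n
  · obtain ⟨m, rfl⟩ := hn
    rw [r3_coeff9 he, r3_coeff3 he ζ ω s (fun _ => c) m]
    by_cases h : ∃ k : ℤ, k ^ 2 = m ∧ k ≡ c [ZMOD 2 ^ s]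
    · simp only [if_pos h]
      obtain ⟨k, hk, hkc⟩ := h
      by_cases h3 : (3 : ℤ) ∣ k
      · obtain ⟨k', rfl⟩ := h3
        have hm3 : (3 : ℤ) ∣ m := ⟨3 * k' ^ 2, by rw [← hk]; ring⟩
        rw [r3_pow_zero hω hm3, if_pos ⟨k', by rw [← hk]; ring, r3_cancel (hkc.trans hcc.symm)⟩]
        simp only [one_pow, Units.val_one, Finset.sum_range_succ, Finset.sum_range_zero, zero_add,
          r3_three, mul_one]
        exact CharTwo.add_self_eq_zero _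
      · have hm1 : m % 3 = 1 := by rw [← hk]; exact r3_sq_mod h3
        rw [r3_pow_one hω hm1, if_neg]
        · have h5 := r3_omega hω
          simp only [Finset.sum_range_succ, Finset.sum_range_zero, zero_add, pow_zero,
            pow_one, Units.val_pow_eq_pow_val]
          rw [h5, mul_zero, add_zero]
        · rintro ⟨k', hk', _⟩
          omega
    · simp only [if_neg h]
      rw [if_neg]
      · simp
      · rintro ⟨k, hk, hkc⟩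
        exact h ⟨3 * k, by rw [← hk]; ring, (hkc.mul_left 3).trans hcc⟩
  · rw [sig_coeff_of_not_dvd h9, add_zero, HahnSeries.coeff_sum]
    · exact Finset.sum_eq_zero fun j _ => sig_coeff_of_not_dvd he _ _ _ hn
    · rintro ⟨l, hl⟩
      exact hn ⟨9 * l, by rw [hl]; push_cast; ring⟩

lemma r3_crt (s : ℕ) (c r : ℤ) : ∃ k : ℤ, k ≡ c [ZMOD 2 ^ s] ∧ k ≡ r [ZMOD 3] := by
  have hc : IsCoprime ((2 : ℤ) ^ s) 3 := by
    apply IsCoprime.pow_left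
    exact ⟨-1, 1, by norm_num⟩
  obtain ⟨a, b, hab⟩ := hc
  refine ⟨b * 3 * c + a * 2 ^ s * r, ?_, ?_⟩
  · rw [Int.modEq_iff_dvd]
    refine ⟨a * (c - r), ?_⟩
    linear_combination (-c) * hab
  · rw [Int.modEq_iff_dvd]
    refine ⟨b * (r - c), ?_⟩
    linear_combination (-r) * hab

lemma r3_sign {s : ℕ} {k k' a b : ℤ} (h : k' ^ 2 = k ^ 2) (hk : k ≡ a [ZMOD 2 ^ s])
    (hk' : k' ≡ b [ZMOD 2 ^ s]) : b ≡ a [ZMOD 2 ^ s] ∨ b ≡ -a [ZMOD 2 ^ s] := by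
  rcases sq_eq_sq_iff_eq_or_eq_neg.mp h with h | h
  · left; rw [h] at hk'; exact hk'.symm.trans hk
  · right; rw [h] at hk'; exact hk'.symm.trans hk.neg

lemma r3_sign' {s : ℕ} {k a b : ℤ} (hk : k ≡ a [ZMOD 2 ^ s])
    (h : b ≡ a [ZMOD 2 ^ s] ∨ b ≡ -a [ZMOD 2 ^ s]) :
    ∃ k' : ℤ, k' ^ 2 = k ^ 2 ∧ k' ≡ b [ZMOD 2 ^ s] := by
  rcases h with h | h
  · exact ⟨k, rfl, hk.trans h.symm⟩
  · exact ⟨-k, by ring, hk.neg.trans h.symm⟩

theorem R3U : R3U_stmt := by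
  classical
  intro e s ζ ω c c' he hs hc hc' hω hrel
  have he' : (e : ℤ) ≠ 0 := by exact_mod_cast he
  have hcoef : ∀ m : ℤ, ((ζ ^ m : kkˣ) : kk) * (∑ j ∈ Finset.range 3,
        if ∃ k : ℤ, k ^ 2 = m ∧ k ≡ c j [ZMOD 2 ^ s] then (((ω ^ m) ^ j : kkˣ) : kk) else 0) +
      (if ∃ k : ℤ, 9 * k ^ 2 = m ∧ k ≡ c' [ZMOD 2 ^ s] then ((ζ ^ m : kkˣ) : kk) else 0) = 0 := by
    intro m
    have h := congrArg (fun F => HahnSeries.coeff F ((e : ℤ) * m)) hrel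
    simp only [HahnSeries.coeff_add, HahnSeries.coeff_zero] at h
    rw [r3_coeff9 he, r3_coeff3 he ζ ω s c m] at h
    exact h
  have hw := r3_omega hω
  have hw0 : (ω : kk) ≠ 0 := ω.ne_zero
  have h01 : ∀ j, j = 1 ∨ j = 2 → (c j ≡ c 0 [ZMOD 2 ^ s] ∨ c j ≡ - c 0 [ZMOD 2 ^ s]) := by
    obtain ⟨k, hk0, hk3⟩ := r3_crt s (c 0) 1
    have hk3' : ¬ (3 : ℤ) ∣ k := by
      intro h
      have : k % 3 = 1 % 3 := hk3
      omega
    have hm := hcoef (k ^ 2)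
    rw [r3_pow_one hω (r3_sq_mod hk3')] at hm
    rw [if_neg (by
      rintro ⟨k', hk', _⟩
      have := r3_sq_mod hk3'
      omega), add_zero] at hm
    have hm2 := (mul_eq_zero.mp hm).resolve_left (Units.ne_zero _)
    simp only [Finset.sum_range_succ, Finset.sum_range_zero, zero_add, pow_zero,
            pow_one, Units.val_pow_eq_pow_val] at hm2
    rw [if_pos ⟨k, rfl, hk0⟩] at hm2
    by_cases h1 : ∃ k' : ℤ, k' ^ 2 = k ^ 2 ∧ k' ≡ c 1 [ZMOD 2 ^ s]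
    · by_cases h2 : ∃ k' : ℤ, k' ^ 2 = k ^ 2 ∧ k' ≡ c 2 [ZMOD 2 ^ s]
      · rintro j (rfl | rfl)
        · obtain ⟨k', h3, h4⟩ := h1
          exact r3_sign h3 hk0 h4
        · obtain ⟨k', h3, h4⟩ := h2
          exact r3_sign h3 hk0 h4
      · exfalso
        rw [if_pos h1, if_neg h2, add_zero] at hm2
        rw [hm2, zero_add] at hw
        exact hw0 (pow_eq_zero_iff (two_ne_zero) |>.mp hw)
    · exfalso
      rw [if_neg h1, add_zero] at hm2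
      by_cases h2 : ∃ k' : ℤ, k' ^ 2 = k ^ 2 ∧ k' ≡ c 2 [ZMOD 2 ^ s]
      · rw [if_pos h2] at hm2
        apply hw0
        linear_combination hw - hm2
      · rw [if_neg h2, add_zero] at hm2
        exact one_ne_zero hm2
  refine ⟨h01 1 (Or.inl rfl), h01 2 (Or.inr rfl), ?_⟩
  obtain ⟨k, hk0, hk3⟩ := r3_crt s (c 0) 0
  have hk3' : (3 : ℤ) ∣ k := by
    have : k % 3 = 0 % 3 := hk3
    omega
  have hm := hcoef (k ^ 2)
  have hm3 : (3 : ℤ) ∣ k ^ 2 := Dvd.dvd.pow hk3' two_ne_zero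
  rw [r3_pow_zero hω hm3] at hm
  simp only [one_pow, Units.val_one, Finset.sum_range_succ, Finset.sum_range_zero, zero_add] at hm
  rw [if_pos ⟨k, rfl, hk0⟩, if_pos (r3_sign' hk0 (h01 1 (Or.inl rfl))),
    if_pos (r3_sign' hk0 (h01 2 (Or.inr rfl))), r3_three, mul_one] at hm
  by_cases h : ∃ k' : ℤ, 9 * k' ^ 2 = k ^ 2 ∧ k' ≡ c' [ZMOD 2 ^ s]
  · obtain ⟨k', h1, h2⟩ := h
    have h3 : (3 * k') ^ 2 = k ^ 2 := by rw [← h1]; ring
    have h4 : 3 * k' ≡ 3 * c' [ZMOD 2 ^ s] := h2.mul_left 3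
    exact r3_sign h3.symm h4 hk0
  · exfalso
    rw [if_neg h, add_zero] at hm
    exact Units.ne_zero _ hm

end Pool.Agent.helper7.IG
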