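import Mathlib
import Pool.Agent.helper7.IG.Basic

/-!
# IG: module ZE (the zero estimate)
-/

set_option autoImplicit false

open Polynomial

noncomputable section

namespace Pool.Agent.helper7.IG

/-- All coefficients have degree at most `H`. -/
def ze_cd (H : ℕ) (P : Polynomial (Polynomial kk)) : Prop := ∀ k, (P.coeff k).natDegree ≤ H

lemma ze_swap_coeff (P : Polynomial (Polynomial kk)) (i j : ℕ) :
    ((Polynomial.Bivariate.swap P).coeff i).coeff j = (P.coeff j).coeff i := by
  induction P using Polynomial.induction_on' with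
  | add p q hp hq => rw [map_add, coeff_add, coeff_add, coeff_add, coeff_add, hp, hq]
  | monomial n f =>
    induction f using Polynomial.induction_on' with
    | add p q hp hq =>
      rw [map_add, map_add, coeff_add, coeff_add, coeff_add, coeff_add, hp, hq]
    | monomial m r =>
      rw [Polynomial.Bivariate.swap_monomial_monomial, coeff_monomial, coeff_monomial]
      split_ifs with h1 h2 h2
      · rw [coeff_monomial, coeff_monomial, if_pos h1, if_pos h2]
      · rw [coeff_monomial, if_neg h2, coeff_zero]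
      · rw [coeff_monomial, if_neg h1, coeff_zero]
      · rw [coeff_zero, coeff_zero]

lemma ze_cd_iff (H : ℕ) (P : Polynomial (Polynomial kk)) :
    ze_cd H P ↔ (Polynomial.Bivariate.swap P).natDegree ≤ H := by
  constructor
  · intro h
    rw [natDegree_le_iff_coeff_eq_zero]
    intro i hi
    ext j
    rw [ze_swap_coeff, coeff_zero]
    exact coeff_eq_zero_of_natDegree_lt (lt_of_le_of_lt (h j) hi)
  · intro h j
    rw [natDegree_le_iff_coeff_eq_zero]
    intro i hi
    rw [← ze_swap_coeff, coeff_eq_zero_of_natDegree_lt (lt_of_le_of_lt h hi), coeff_zero]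

lemma ze_cd_left {H : ℕ} {P Q : Polynomial (Polynomial kk)} (h0 : P * Q ≠ 0)
    (h : ze_cd H (P * Q)) : ze_cd H P ∧ ze_cd H Q := by
  rw [ze_cd_iff, ze_cd_iff]
  rw [ze_cd_iff, map_mul, natDegree_mul] at h
  · omega
  · intro h1
    apply h0
    rw [(map_eq_zero_iff _ (AlgEquiv.injective _)).mp h1, zero_mul]
  · intro h1
    apply h0
    rw [(map_eq_zero_iff _ (AlgEquiv.injective _)).mp h1, mul_zero]

/-- Gauss's lemma. -/
lemma ze_gauss {P : Polynomial (Polynomial kk)} (hP : P.natDegree ≠ 0)
    (hirr : ¬ Irreducible (P.map (algebraMap (Polynomial kk) (FractionRing (Polynomial kk))))) :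
    ∃ P1 P2 : Polynomial (Polynomial kk), P = P1 * P2 ∧ P1.natDegree ≠ 0 ∧ P2.natDegree ≠ 0 := by
  let _ : NormalizedGCDMonoid (Polynomial kk) := Nonempty.some inferInstance
  have hP0 : P ≠ 0 := by
    rintro rfl
    exact hP natDegree_zero
  have hc : P.content ≠ 0 := by
    intro h
    exact hP0 (content_eq_zero_iff.mp h)
  have h1 := P.eq_C_content_mul_primPart
  have hprim := P.isPrimitive_primPart
  have h2 : ¬ Irreducible P.primPart := by
    intro h
    apply hirr
    rw [hprim.irreducible_iff_irreducible_map_fraction_map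
      (K := FractionRing (Polynomial kk))] at h
    rw [h1, Polynomial.map_mul, map_C]
    have hu : IsUnit (C (algebraMap (Polynomial kk) (FractionRing (Polynomial kk)) P.content)) := by
      rw [isUnit_C, isUnit_iff_ne_zero]
      exact fun h3 => hc ((map_eq_zero_iff _ (IsFractionRing.injective _ _)).mp h3)
    exact (irreducible_isUnit_mul hu).mpr h
  have h3 : ¬ IsUnit P.primPart := by
    intro h
    have := natDegree_eq_zero_of_isUnit h
    rw [natDegree_primPart] at this
    exact hP this
  rw [irreducible_iff] at h2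
  push Not at h2
  obtain ⟨a, b, hab, ha, hb⟩ := h2 h3
  have key : ∀ u v : Polynomial (Polynomial kk), P.primPart = u * v → ¬ IsUnit u →
      u.natDegree ≠ 0 := by
    intro u v huv hu h0
    apply hu
    rw [eq_C_of_natDegree_eq_zero h0] at huv ⊢
    exact isUnit_C.mpr (hprim _ ⟨v, huv⟩)
  refine ⟨C P.content * a, b, by rw [mul_assoc, ← hab]; exact h1, ?_, key b a (by rw [hab, mul_comm]) hb⟩
  rw [natDegree_C_mul hc]
  exact key a b hab ha

lemma ze_sqrt (α : kk) : ∃ β : kk, β ^ 2 = α := by
  obtain ⟨β, hβ⟩ := IsAlgClosed.exists_pow_nat_eq α (n := 2) (by norm_num)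
  exact ⟨β, hβ⟩

/-- Decomposition in one variable. -/
lemma ze_dec1 (a : Polynomial kk) (H : ℕ) (ha : a.natDegree ≤ H) : ∃ b c : Polynomial kk,
    b.natDegree ≤ H ∧ c.natDegree ≤ H ∧ a = b ^ 2 + X * c ^ 2 := by
  have hsum := a.as_sum_range_C_mul_X_pow' (n := H + 1) (by omega)
  rw [hsum]
  have key : ∀ m, m ≤ H + 1 → ∃ b c : Polynomial kk,
    b.natDegree ≤ H ∧ c.natDegree ≤ H ∧
      (∑ i ∈ Finset.range m, C (a.coeff i) * X ^ i) = b ^ 2 + X * c ^ 2 := by
    intro m
    induction m with
    | zero => intro _; exact ⟨0, 0, by simp, by simp, by simp⟩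
    | succ m ih =>
      intro hm
      obtain ⟨b, c, hb, hc, h⟩ := ih (by omega)
      obtain ⟨β, hβ⟩ := ze_sqrt (a.coeff m)
      rcases Nat.even_or_odd' m with ⟨k, hk | hk⟩
      · refine ⟨b + C β * X ^ k, c, ?_, hc, ?_⟩
        · refine (natDegree_add_le _ _).trans (max_le hb ?_)
          exact (natDegree_C_mul_X_pow_le _ _).trans (by omega)
        · rw [Finset.sum_range_succ, h, CharTwo.add_sq, mul_pow, ← C_pow, hβ, ← pow_mul]
          rw [show k * 2 = m by omega]
          ring
      · refine ⟨b, c + C β * X ^ k, hb, ?_, ?_⟩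
        · refine (natDegree_add_le _ _).trans (max_le hc ?_)
          exact (natDegree_C_mul_X_pow_le _ _).trans (by omega)
        · rw [Finset.sum_range_succ, h, CharTwo.add_sq, mul_pow, ← C_pow, hβ, ← pow_mul]
          rw [hk, pow_succ, mul_comm 2 k]
          ring
  exact key (H + 1) le_rfl

/-- Decomposition in two variables. -/
lemma ze_dec2 {n H : ℕ} {P : Polynomial (Polynomial kk)} (hn : P.natDegree ≤ n + 1)
    (hH : ze_cd H P) (hd : derivative P = 0) : ∃ G0 G1 : Polynomial (Polynomial kk),
    G0.natDegree ≤ n ∧ G1.natDegree ≤ n ∧ ze_cd H G0 ∧ ze_cd H G1 ∧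
      P = G0 ^ 2 + C X * G1 ^ 2 := by
  have h1 : P = expand (Polynomial kk) 2 (contract 2 P) := (expand_contract 2 hd two_ne_zero).symm
  set G := contract 2 P with hG
  have hGd : G.natDegree * 2 = P.natDegree := by
    conv_rhs => rw [h1]
    rw [natDegree_expand]
  have hGn : G.natDegree ≤ n := by omega
  have hGH : ze_cd H G := by
    intro k
    rw [hG, coeff_contract two_ne_zero]
    exact hH _
  choose b c hb hc hbc using fun k => ze_dec1 (G.coeff k) H (hGH k)
  have hsum := G.as_sum_range_C_mul_X_pow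
  have key : ∀ m, m ≤ G.natDegree + 1 → ∃ G0 G1 : Polynomial (Polynomial kk),
    G0.natDegree ≤ n ∧ G1.natDegree ≤ n ∧ ze_cd H G0 ∧ ze_cd H G1 ∧
      expand (Polynomial kk) 2 (∑ i ∈ Finset.range m, C (G.coeff i) * X ^ i) =
        G0 ^ 2 + C X * G1 ^ 2 := by
    intro m
    induction m with
    | zero =>
      intro _
      refine ⟨0, 0, by simp, by simp, ?_, ?_, by simp⟩ <;> intro k <;> simp
    | succ m ih =>
      intro hm
      obtain ⟨G0, G1, h0, h1, h2, h3, h4⟩ := ih (by omega)
      have hadd : ∀ (F : Polynomial (Polynomial kk)) (u : Polynomial kk), F.natDegree ≤ n →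
          ze_cd H F → u.natDegree ≤ H →
          (F + C u * X ^ m).natDegree ≤ n ∧ ze_cd H (F + C u * X ^ m) := by
        intro F u hF1 hF2 hu
        constructor
        · refine (natDegree_add_le _ _).trans (max_le hF1 ?_)
          exact (natDegree_C_mul_X_pow_le _ _).trans (by omega)
        · intro k
          rw [coeff_add, coeff_C_mul_X_pow]
          refine (natDegree_add_le _ _).trans (max_le (hF2 k) ?_)
          split_ifs
          · exact hu
          · simp
      refine ⟨G0 + C (b m) * X ^ m, G1 + C (c m) * X ^ m, (hadd _ _ h0 h2 (hb m)).1,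
        (hadd _ _ h1 h3 (hc m)).1, (hadd _ _ h0 h2 (hb m)).2, (hadd _ _ h1 h3 (hc m)).2, ?_⟩
      rw [Finset.sum_range_succ, map_add, h4, CharTwo.add_sq, CharTwo.add_sq, map_mul, expand_C,
        map_pow, expand_X, hbc m, map_add, map_mul, map_pow, map_pow]
      ring
  obtain ⟨G0, G1, h0, h2, h3, h4, h5⟩ := key (G.natDegree + 1) le_rfl
  refine ⟨G0, G1, h0, h2, h3, h4, ?_⟩
  rw [← hsum] at h5
  rw [h1]
  exact h5

lemma ze_ev_mul (P Q : Polynomial (Polynomial kk)) : ev (P * Q) = ev P * ev Q := by
  unfold ev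
  rw [eval₂_mul]

lemma ze_ev_add (P Q : Polynomial (Polynomial kk)) : ev (P + Q) = ev P + ev Q := by
  unfold ev
  rw [eval₂_add]

lemma ze_ev_C (a : Polynomial kk) : ev (C a) = incl a := by
  unfold ev
  rw [eval₂_C]

lemma ze_incl_coeff (a : Polynomial kk) (n : ℕ) : (incl a).coeff (n : ℤ) = a.coeff n := by
  unfold incl
  rw [RingHom.comp_apply, HahnSeries.ofPowerSeries_apply_coeff]
  simp

lemma ze_incl_order {a : Polynomial kk} (ha : a ≠ 0) : (incl a).order ≤ a.natDegree := by
  apply HahnSeries.order_le_of_coeff_ne_zero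
  rw [ze_incl_coeff]
  exact leadingCoeff_ne_zero.mpr ha

lemma ze_incl_X : incl X = HahnSeries.single (1 : ℤ) (1 : kk) := by
  unfold incl
  rw [RingHom.comp_apply]
  simp

/-- The order of a sum of two series of different orders. -/
lemma ze_order_add {u v : LL} (hu : u ≠ 0) (h : u.order < v.order) :
    (u + v).order ≤ u.order := by
  apply HahnSeries.order_le_of_coeff_ne_zero
  rw [HahnSeries.coeff_add, HahnSeries.coeff_eq_zero_of_lt_order h, add_zero]
  exact HahnSeries.coeff_order_eq_zero.not.mpr hu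

theorem ZE_of (htc : TC_stmt) (hres : RES_stmt) (hzs : ZS_stmt) : ZE_stmt := by
  intro n
  induction n with
  | zero =>
    refine ⟨1, ?_⟩
    intro H P hP hn hH
    rw [eq_C_of_natDegree_le_zero hn, ze_ev_C]
    have h0 : P.coeff 0 ≠ 0 := by
      intro h
      apply hP
      rw [eq_C_of_natDegree_le_zero hn, h, C_0]
    refine (ze_incl_order h0).trans ?_
    have := hH 0
    push_cast
    have h2 : ((P.coeff 0).natDegree : ℤ) ≤ H := by exact_mod_cast this
    linarith
  | succ n ih =>
    obtain ⟨K, hK⟩ := ih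
    obtain ⟨K2, hK2⟩ := hzs (n + 1)
    refine ⟨2 * K + 1 + K2, ?_⟩
    intro H P hP hn hH
    have hHn : (0 : ℤ) ≤ (H : ℤ) + 1 := by positivity
    have hb1 : (K2 : ℤ) * ((H : ℤ) + 1) ≤ ((2 * K + 1 + K2 : ℕ) : ℤ) * ((H : ℤ) + 1) := by
      push_cast
      have : (0 : ℤ) ≤ (2 * K + 1) * ((H : ℤ) + 1) := by positivity
      linarith
    have hb2 : 2 * ((K : ℤ) * ((H : ℤ) + 1)) + 1 ≤ ((2 * K + 1 + K2 : ℕ) : ℤ) * ((H : ℤ) + 1) := by
      push_cast
      have h1 : (0 : ℤ) ≤ K2 * ((H : ℤ) + 1) := by positivity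
      have h2 : (0 : ℤ) ≤ (H : ℤ) := by positivity
      linarith
    by_cases h0 : P.natDegree = 0
    · have h1 := hK H P hP (by omega) hH
      refine h1.trans ?_
      have h2 : (0 : ℤ) ≤ (K : ℤ) * ((H : ℤ) + 1) := by positivity
      linarith
    by_cases hd : derivative P = 0
    · obtain ⟨G0, G1, h1, h2, h3, h4, h5⟩ := ze_dec2 hn hH hd
      have hev : ev P = ev G0 * ev G0 + incl X * (ev G1 * ev G1) := by
        rw [h5, ze_ev_add, ze_ev_mul, pow_two, pow_two, ze_ev_mul, ze_ev_mul, ze_ev_C]
      have hX0 : incl X ≠ 0 := by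
        rw [ze_incl_X]
        exact HahnSeries.single_ne_zero one_ne_zero
      have hXo : (incl X).order = 1 := by
        rw [ze_incl_X]
        exact HahnSeries.order_single one_ne_zero
      have hoA : G0 ≠ 0 → ev G0 * ev G0 ≠ 0 ∧ (ev G0 * ev G0).order = 2 * (ev G0).order ∧
          (ev G0).order ≤ K * (H + 1) := by
        intro hG
        have h6 := htc G0 hG
        refine ⟨mul_ne_zero h6 h6, ?_, hK H G0 hG h1 h3⟩
        rw [HahnSeries.order_mul h6 h6]; ring
      have hoB : G1 ≠ 0 → incl X * (ev G1 * ev G1) ≠ 0 ∧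
          (incl X * (ev G1 * ev G1)).order = 1 + 2 * (ev G1).order ∧
          (ev G1).order ≤ K * (H + 1) := by
        intro hG
        have h6 := htc G1 hG
        refine ⟨mul_ne_zero hX0 (mul_ne_zero h6 h6), ?_, hK H G1 hG h2 h4⟩
        rw [HahnSeries.order_mul hX0 (mul_ne_zero h6 h6), HahnSeries.order_mul h6 h6, hXo]; ring
      have hev0 : ev (0 : Polynomial (Polynomial kk)) = 0 := by
        unfold ev
        rw [eval₂_zero]
      by_cases hG0 : G0 = 0
      · have hG1 : G1 ≠ 0 := by
          rintro rfl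
          apply hP
          rw [h5, hG0]
          simp
        obtain ⟨h6, h7, h8⟩ := hoB hG1
        rw [hev, hG0, hev0, zero_mul, zero_add, h7]
        linarith
      · obtain ⟨h6, h7, h8⟩ := hoA hG0
        by_cases hG1 : G1 = 0
        · rw [hev, hG1, hev0, zero_mul, mul_zero, add_zero, h7]
          linarith
        · obtain ⟨h9, h10, h11⟩ := hoB hG1
          rcases lt_trichotomy (ev G0 * ev G0).order (incl X * (ev G1 * ev G1)).order with h | h | h
          · have := ze_order_add h6 h
            rw [hev]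
            linarith
          · exfalso
            rw [h7, h10] at h
            omega
          · have := ze_order_add h9 h
            rw [hev, add_comm]
            linarith
    by_cases hirr : Irreducible (P.map (algebraMap (Polynomial kk) (FractionRing (Polynomial kk))))
    · obtain ⟨A, B, R, hR0, hR1, hR2⟩ := hres (n + 1) H P hn hH hd hirr
      exact (hK2 H P A B R hP hn hH hR0 hR1 hR2).trans hb1
    · obtain ⟨P1, P2, hP12, h1, h2⟩ := ze_gauss h0 hirr
      have hP1 : P1 ≠ 0 := by
        rintro rfl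
        exact h1 natDegree_zero
      have hP2 : P2 ≠ 0 := by
        rintro rfl
        exact h2 natDegree_zero
      have hdeg := natDegree_mul hP1 hP2
      rw [← hP12] at hdeg
      have hcd := ze_cd_left (H := H) (P := P1) (Q := P2) (mul_ne_zero hP1 hP2) (by rw [← hP12]; exact hH)
      have h3 := hK H P1 hP1 (by omega) hcd.1
      have h4 := hK H P2 hP2 (by omega) hcd.2
      rw [hP12, ze_ev_mul, HahnSeries.order_mul (htc P1 hP1) (htc P2 hP2)]
      linarith

end Pool.Agent.helper7.IG
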